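import Pool.Agent.helper90.ZD.SpecB

set_option autoImplicit false

open Complex MeasureTheory

namespace Pool.Agent.ZD

open Pool.Agent.helper84.DM Pool.Agent.helper78.ED Pool.Agent.DH

/-- `‖ρ(-x)‖ = ‖ρ(x)‖`. -/
theorem BC7_rho_neg (W : Finset ℝ) (x : ℝ) :
    ‖∑ t ∈ W, Complex.exp (((-(t * x) : ℝ) : ℂ) * I)‖ = ‖rho W x‖ := by
  have h : ∑ t ∈ W, Complex.exp (((-(t * x) : ℝ) : ℂ) * I) = (starRingEnd ℂ) (rho W x) := by
    unfold rho
    rw [map_sum]
    refine Finset.sum_congr rfl fun t _ => ?_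
    rw [← Complex.exp_conj]
    congr 1
    simp
  rw [h, Complex.norm_conj]

theorem BC7_rho_le (W : Finset ℝ) (x : ℝ) : ‖rho W x‖ ≤ (W.card : ℝ) := by
  unfold rho
  refine (norm_sum_le _ _).trans ?_
  have : ∀ t ∈ W, ‖Complex.exp (((t * x : ℝ) : ℂ) * I)‖ ≤ 1 := fun t _ => by
    rw [Complex.norm_exp_ofReal_mul_I]
  simpa using Finset.sum_le_card_nsmul W _ 1 this

/-- The frequency bound. -/
theorem BC7_freq (T : ℝ) (N n : ℕ) (y : ℝ) (hT : 1 ≤ T) (hN : (N : ℝ) ≤ T)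
    (hn : n ∈ Finset.Ioc N (4 * N)) (hy : |y| ≤ 6) : |y - Real.log n| ≤ Real.log T + 8 := by
  obtain ⟨h1, h2⟩ := Finset.mem_Ioc.1 hn
  have hn1 : (1 : ℝ) ≤ (n : ℝ) := by exact_mod_cast (by omega : 1 ≤ n)
  have hl0 : 0 ≤ Real.log n := Real.log_nonneg hn1
  have hl1 : Real.log n ≤ Real.log T + 2 := by
    have hn2 : (n : ℝ) ≤ 4 * T := by
      have : (n : ℝ) ≤ 4 * (N : ℝ) := by exact_mod_cast h2
      linarith
    have h3 : Real.log n ≤ Real.log (4 * T) := Real.log_le_log (by linarith) hn2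
    rw [Real.log_mul (by norm_num) (by linarith)] at h3
    have h4 : Real.log 4 ≤ 2 := by
      have h5 : Real.log 4 = 2 * Real.log 2 := by
        rw [show (4 : ℝ) = 2 ^ 2 by norm_num, Real.log_pow]; norm_num
      have := Real.log_two_lt_d9
      linarith
    linarith
  obtain ⟨hy1, hy2⟩ := abs_le.1 hy
  have hT0 := Real.log_nonneg hT
  rw [abs_le]
  constructor
  · linarith
  · linarith

/-- The splitting of the Gaussian. -/
theorem BC7_gauss (T u η : ℝ) (hη : 0 ≤ η) [Decidable (|u| ≤ η)] :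
    Real.exp (-(T * u) ^ 2 / 4) ≤
      (if |u| ≤ η then 1 else 0) + Real.exp (-(T * η) ^ 2 / 4) := by
  split_ifs with h
  · have h1 : Real.exp (-(T * u) ^ 2 / 4) ≤ 1 := by
      rw [Real.exp_le_one_iff]
      have : 0 ≤ (T * u) ^ 2 := sq_nonneg _
      linarith
    have h2 := Real.exp_pos (-(T * η) ^ 2 / 4)
    linarith
  · rw [zero_add]
    apply Real.exp_le_exp.2
    have h1 : η ≤ |u| := (not_le.1 h).le
    have h2 : (T * η) ^ 2 ≤ (T * u) ^ 2 := by
      rw [mul_pow, mul_pow, ← sq_abs u]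
      have : η ^ 2 ≤ |u| ^ 2 := pow_le_pow_left₀ hη h1 2
      exact mul_le_mul_of_nonneg_left this (sq_nonneg T)
    linarith

/-- The product formula for the Dirichlet polynomial times `ν`. -/
theorem BC7_prod (A : Finset ℕ) (hA : 0 ∉ A) (b : ℕ → ℂ) (J : Finset ℤ) (x : ℤ → ℝ)
    (t t' : ℝ) :
    ∑ p ∈ J ×ˢ A, (b p.2 * Complex.exp (((-(t' * x p.1) : ℝ) : ℂ) * I)) *
        Complex.exp (((t * (x p.1 - Real.log p.2) : ℝ) : ℂ) * I)
      = DG A b t * nu J x (t - t') := by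
  rw [Finset.sum_product, Finset.sum_comm]
  unfold DG nu
  rw [Finset.sum_mul]
  refine Finset.sum_congr rfl fun n hn => ?_
  rw [Finset.mul_sum]
  refine Finset.sum_congr rfl fun j _ => ?_
  have hn0 : (n : ℂ) ≠ 0 := by
    have : n ≠ 0 := fun h => hA (h ▸ hn)
    exact_mod_cast this
  rw [Complex.cpow_def_of_ne_zero hn0, mul_assoc, mul_assoc]
  congr 1
  rw [← Complex.exp_add, ← Complex.exp_add]
  congr 1
  rw [show Complex.log (n : ℂ) = ((Real.log n : ℝ) : ℂ) by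
    rw [← Complex.natCast_log]]
  push_cast
  ring

theorem BC7 (h : BLS_stmt) : BC7_stmt := by
  classical
  intro T η W N b B V J x hT hSep hN hNT hη hB hV hb hD hx
  set A : Finset ℕ := Finset.Ioc N (4 * N) with hAdef
  have hA0 : 0 ∉ A := by
    intro h0
    have := (Finset.mem_Ioc.1 h0).1
    omega
  have hlogT : 0 ≤ Real.log T := Real.log_nonneg hT
  have key := h (ℤ × ℕ) ℝ (J ×ˢ A) W
    (fun t' p => b p.2 * Complex.exp (((-(t' * x p.1) : ℝ) : ℂ) * I))
    (fun p => x p.1 - Real.log p.2) (Real.log T + 8) T W hT (by linarith) hSep (by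
      rintro ⟨j, n⟩ hp
      obtain ⟨hj, hn⟩ := Finset.mem_product.1 hp
      exact BC7_freq T N n (x j) hT hNT hn (hx j hj))
  -- the left side
  have hL : V ^ 2 * SN W J x ≤ ∑ t' ∈ W, ∑ t ∈ W,
      ‖∑ p ∈ J ×ˢ A, (b p.2 * Complex.exp (((-(t' * x p.1) : ℝ) : ℂ) * I)) *
        Complex.exp (((t * (x p.1 - Real.log p.2) : ℝ) : ℂ) * I)‖ ^ 2 := by
    unfold SN
    rw [Finset.sum_comm, Finset.mul_sum]
    refine Finset.sum_le_sum fun t' _ => ?_
    rw [Finset.mul_sum]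
    refine Finset.sum_le_sum fun t ht => ?_
    rw [BC7_prod A hA0 b J x t t', norm_mul, mul_pow]
    refine mul_le_mul_of_nonneg_right ?_ (sq_nonneg _)
    exact pow_le_pow_left₀ hV (hD t ht) 2
  -- the right side
  have hR : ∑ p ∈ J ×ˢ A, ∑ p' ∈ J ×ˢ A,
      ‖∑ t' ∈ W, (b p.2 * Complex.exp (((-(t' * x p.1) : ℝ) : ℂ) * I)) *
        (starRingEnd ℂ) (b p'.2 * Complex.exp (((-(t' * x p'.1) : ℝ) : ℂ) * I))‖ *
        Real.exp (-(T * ((x p.1 - Real.log p.2) - (x p'.1 - Real.log p'.2))) ^ 2 / 4) ≤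
      B ^ 2 * (∑ i ∈ J, ∑ i' ∈ J, ‖rho W (x i - x i')‖ * cnt A (x i - x i') η +
        16 * (J.card : ℝ) ^ 2 * (N : ℝ) ^ 2 * (W.card : ℝ) * Real.exp (-(T * η) ^ 2 / 4)) := by
    set E : ℝ := Real.exp (-(T * η) ^ 2 / 4) with hE
    have hE0 : 0 < E := Real.exp_pos _
    have hterm : ∀ p ∈ J ×ˢ A, ∀ p' ∈ J ×ˢ A,
        ‖∑ t' ∈ W, (b p.2 * Complex.exp (((-(t' * x p.1) : ℝ) : ℂ) * I)) *
          (starRingEnd ℂ) (b p'.2 * Complex.exp (((-(t' * x p'.1) : ℝ) : ℂ) * I))‖ *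
          Real.exp (-(T * ((x p.1 - Real.log p.2) - (x p'.1 - Real.log p'.2))) ^ 2 / 4) ≤
        B ^ 2 * (‖rho W (x p.1 - x p'.1)‖ * ((if |x p.1 - x p'.1 -
          (Real.log p.2 - Real.log p'.2)| ≤ η then 1 else 0) + E)) := by
      rintro ⟨j, n⟩ hp ⟨j', n'⟩ hp'
      obtain ⟨hj, hn⟩ := Finset.mem_product.1 hp
      obtain ⟨hj', hn'⟩ := Finset.mem_product.1 hp'
      simp only at hj hn hj' hn' ⊢
      have e1 : ∑ t' ∈ W, (b n * Complex.exp (((-(t' * x j) : ℝ) : ℂ) * I)) *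
          (starRingEnd ℂ) (b n' * Complex.exp (((-(t' * x j') : ℝ) : ℂ) * I)) =
          (b n * (starRingEnd ℂ) (b n')) *
            ∑ t' ∈ W, Complex.exp (((-(t' * (x j - x j')) : ℝ) : ℂ) * I) := by
        rw [Finset.mul_sum]
        refine Finset.sum_congr rfl fun t' _ => ?_
        rw [map_mul, ← Complex.exp_conj, map_mul, Complex.conj_I, Complex.conj_ofReal]
        rw [show (b n * Complex.exp (((-(t' * x j) : ℝ) : ℂ) * I)) *
          ((starRingEnd ℂ) (b n') * Complex.exp (((-(t' * x j') : ℝ) : ℂ) * -I)) =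
          (b n * (starRingEnd ℂ) (b n')) * (Complex.exp (((-(t' * x j) : ℝ) : ℂ) * I) *
            Complex.exp (((-(t' * x j') : ℝ) : ℂ) * -I)) by ring]
        rw [← Complex.exp_add]
        congr 2
        push_cast
        ring
      rw [e1, norm_mul, norm_mul, Complex.norm_conj, BC7_rho_neg]
      have e2 : T * ((x j - Real.log n) - (x j' - Real.log n')) =
          T * (x j - x j' - (Real.log n - Real.log n')) := by ring
      rw [e2]
      have g := BC7_gauss T (x j - x j' - (Real.log n - Real.log n')) η hη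
      have hbb : ‖b n‖ * ‖b n'‖ ≤ B ^ 2 := by
        rw [sq]
        exact mul_le_mul (hb n hn) (hb n' hn') (norm_nonneg _) hB
      calc ‖b n‖ * ‖b n'‖ * ‖rho W (x j - x j')‖ *
          Real.exp (-(T * (x j - x j' - (Real.log n - Real.log n'))) ^ 2 / 4)
          ≤ B ^ 2 * ‖rho W (x j - x j')‖ * ((if |x j - x j' -
            (Real.log n - Real.log n')| ≤ η then 1 else 0) + E) := by
            refine mul_le_mul ?_ g (Real.exp_pos _).le (by positivity)
            exact mul_le_mul_of_nonneg_right hbb (norm_nonneg _)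
        _ = _ := by ring
    refine (Finset.sum_le_sum fun p hp => Finset.sum_le_sum fun p' hp' =>
      hterm p hp p' hp').trans ?_
    -- now evaluate the sum
    have e3 : ∑ p ∈ J ×ˢ A, ∑ p' ∈ J ×ˢ A,
        B ^ 2 * (‖rho W (x p.1 - x p'.1)‖ * ((if |x p.1 - x p'.1 -
          (Real.log p.2 - Real.log p'.2)| ≤ η then 1 else 0) + E)) =
        B ^ 2 * ∑ i ∈ J, ∑ i' ∈ J, ‖rho W (x i - x i')‖ *
          (cnt A (x i - x i') η + (A.card : ℝ) ^ 2 * E) := by
      rw [Finset.sum_product]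
      rw [Finset.mul_sum]
      refine Finset.sum_congr rfl fun i _ => ?_
      rw [Finset.sum_congr rfl fun n (_ : n ∈ A) => Finset.sum_product _ _ _]
      rw [Finset.sum_comm, Finset.mul_sum]
      refine Finset.sum_congr rfl fun i' _ => ?_
      simp only [← Finset.mul_sum]
      congr 2
      simp only [Finset.sum_add_distrib, Finset.sum_const, nsmul_eq_mul]
      unfold cnt
      ring_nf
    rw [e3]
    refine mul_le_mul_of_nonneg_left ?_ (sq_nonneg B)
    have hAc : (A.card : ℝ) = 3 * (N : ℝ) := by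
      rw [hAdef, Nat.card_Ioc]
      have : 4 * N - N = 3 * N := by omega
      rw [this]; push_cast; ring
    have e4 : ∑ i ∈ J, ∑ i' ∈ J, ‖rho W (x i - x i')‖ *
          (cnt A (x i - x i') η + (A.card : ℝ) ^ 2 * E) =
        ∑ i ∈ J, ∑ i' ∈ J, ‖rho W (x i - x i')‖ * cnt A (x i - x i') η +
        ∑ i ∈ J, ∑ i' ∈ J, ‖rho W (x i - x i')‖ * ((A.card : ℝ) ^ 2 * E) := by
      rw [← Finset.sum_add_distrib]
      refine Finset.sum_congr rfl fun i _ => ?_
      rw [← Finset.sum_add_distrib]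
      refine Finset.sum_congr rfl fun i' _ => ?_
      ring
    rw [e4]
    refine add_le_add le_rfl ?_
    calc ∑ i ∈ J, ∑ i' ∈ J, ‖rho W (x i - x i')‖ * ((A.card : ℝ) ^ 2 * E)
        ≤ ∑ i ∈ J, ∑ i' ∈ J, (W.card : ℝ) * ((A.card : ℝ) ^ 2 * E) :=
          Finset.sum_le_sum fun i _ => Finset.sum_le_sum fun i' _ =>
            mul_le_mul_of_nonneg_right (BC7_rho_le W _) (by positivity)
      _ = 9 * (J.card : ℝ) ^ 2 * (N : ℝ) ^ 2 * (W.card : ℝ) * E := by
          rw [hAc]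
          simp only [Finset.sum_const, nsmul_eq_mul]
          ring
      _ ≤ 16 * (J.card : ℝ) ^ 2 * (N : ℝ) ^ 2 * (W.card : ℝ) * E := by
          have : 0 ≤ (J.card : ℝ) ^ 2 * (N : ℝ) ^ 2 * (W.card : ℝ) * E := by positivity
          nlinarith
  have hC : 0 ≤ 10 ^ 5 * T * (Real.log T + 8) ^ 2 := by positivity
  calc V ^ 2 * SN W J x ≤ _ := hL
    _ ≤ _ := key
    _ ≤ 10 ^ 5 * T * (Real.log T + 8) ^ 2 * (B ^ 2 * (∑ i ∈ J, ∑ i' ∈ J,
        ‖rho W (x i - x i')‖ * cnt A (x i - x i') η +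
        16 * (J.card : ℝ) ^ 2 * (N : ℝ) ^ 2 * (W.card : ℝ) * Real.exp (-(T * η) ^ 2 / 4))) :=
        mul_le_mul_of_nonneg_left hR hC
    _ = _ := by ring

end Pool.Agent.ZD
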